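import Mathlib
import Pool.Agent.X260.VFDefs
import Pool.Agent.X260.Tree

/-!
# Trees of virtually fibered groups with infinite virtually cyclic, virtually retracted edge groups
are virtually fibered
-/

set_option autoImplicit false

namespace Pool.Agent.Results.MP_64528c_al.TreeVFibered

open Pool.Agent.X260.Tree

universe u v

/-- `H` is fibered: there is a surjective homomorphism `H → ℤ` with finitely generated kernel. -/
def IsFibered (H : Type u) [Group H] : Prop :=
  ∃ φ : H →* Multiplicative ℤ, Function.Surjective φ ∧ φ.ker.FG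

/-- `H` is virtually fibered: some finite index subgroup of `H` is fibered. -/
def IsVirtFibered (H : Type u) [Group H] : Prop :=
  ∃ K : Subgroup H, K.FiniteIndex ∧ IsFibered K

/-- the subgroup `K` of `H` is a virtual retract: there are a finite index subgroup `H' ≥ K` and a
homomorphism `ρ : H' → K` which is the identity on `K`. -/
def IsVirtRetract {H : Type u} [Group H] (K : Subgroup H) : Prop :=
  ∃ H' : Subgroup H, H'.FiniteIndex ∧ ∃ hK : K ≤ H', ∃ ρ : H' →* K, ∀ k : K,
    ρ (Subgroup.inclusion hK k) = k

/-- infinite virtually cyclic -/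
def IsInfVirtCyclic (H : Type u) [Group H] : Prop :=
  Infinite H ∧ ∃ C : Subgroup H, C.FiniteIndex ∧ IsCyclic C

/-- A tree of groups over the tree `Γ`: a group for every vertex, a group for every (geometric)
edge, and, for each of the two end points `v` of an edge `e`, an injective homomorphism from the
edge group to the vertex group of `v`. -/
structure TreeOfGroups {V : Type v} (Γ : SimpleGraph V) where
  /-- the vertex groups -/
  G : V → Type u
  [instG : ∀ v, Group (G v)]
  /-- the edge groups -/
  E : Γ.edgeSet → Type u
  [instE : ∀ e, Group (E e)]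
  /-- the edge embeddings -/
  ι : ∀ (e : Γ.edgeSet) (v : V), v ∈ e.1 → (E e →* G v)
  inj : ∀ e v hv, Function.Injective (ι e v hv)

attribute [instance] TreeOfGroups.instG TreeOfGroups.instE

/-- the relators identifying the two copies of every edge group in the free product of the vertex
groups -/
def relators {V : Type v} {Γ : SimpleGraph V} (T : TreeOfGroups.{u} Γ) :
    Set (Monoid.CoprodI T.G) :=
  {r | ∃ (e : Γ.edgeSet) (v w : V) (hv : v ∈ e.1) (hw : w ∈ e.1) (x : T.E e),
    r = Monoid.CoprodI.of (T.ι e v hv x) * (Monoid.CoprodI.of (T.ι e w hw x))⁻¹}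

/-- the fundamental group of a tree of groups: the free product of the vertex groups, amalgamated
along the edge groups -/
abbrev FundamentalGroup {V : Type v} {Γ : SimpleGraph V} (T : TreeOfGroups.{u} Γ) :
    Type (max u v) :=
  Monoid.CoprodI T.G ⧸ Subgroup.normalClosure (relators T)

theorem virtFibered_iff (H : Type u) [Group H] :
    IsVirtFibered H ↔ Pool.Agent.X260.VF.VFibered H := by
  constructor
  · rintro ⟨K, hK, φ, hφ, hfg⟩
    refine ⟨K, hK, φ, ?_, hfg⟩
    rintro rfl
    obtain ⟨k, hk⟩ := hφ (Multiplicative.ofAdd 1)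
    have : (0 : ℤ) = 1 := hk
    omega
  · rintro ⟨K, hK, φ, hφ, hfg⟩
    obtain ⟨φ', t, ht, hker⟩ := Pool.Agent.X260.Vert.normalise φ hφ
    refine ⟨K, hK, φ', ?_, by rw [hker]; exact hfg⟩
    intro n
    refine ⟨t ^ (Multiplicative.toAdd n), ?_⟩
    have h := Pool.Agent.X260.Opn.vl_zpow φ' t (Multiplicative.toAdd n)
    rw [ht, mul_one] at h
    exact h

/-- **Virtual fibering of trees of groups.** Let `Γ` be a finite tree and `T` a tree of groups over
`Γ` with virtually fibered vertex groups (for instance fibered vertex groups), whose edge groups are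
infinite virtually cyclic and such that the image of each edge group in each of its two vertex
groups is a virtual retract of the vertex group. Then the fundamental group of `T` is virtually
fibered. -/
theorem result {V : Type v} [Finite V] (Γ : SimpleGraph V) (hΓ : Γ.IsTree)
    (T : TreeOfGroups.{u} Γ) (hG : ∀ v, IsVirtFibered (T.G v))
    (hE : ∀ e, IsInfVirtCyclic (T.E e)) (hr : ∀ e v hv, IsVirtRetract (T.ι e v hv).range) :
    IsVirtFibered (FundamentalGroup T) := by
  rw [virtFibered_iff]
  let j : ∀ v, T.G v →* FundamentalGroup T := fun v =>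
    (QuotientGroup.mk' (Subgroup.normalClosure (relators T))).comp Monoid.CoprodI.of
  refine core Γ hΓ T.G T.E T.ι T.inj (fun v => (virtFibered_iff _).1 (hG v)) hE hr
    (FundamentalGroup T) j ?_ ?_ ?_
  · rw [← Monoid.CoprodI.range_eq_iSup, eq_top_iff]
    intro x _
    obtain ⟨y, rfl⟩ := QuotientGroup.mk'_surjective _ x
    refine ⟨y, ?_⟩
    have h1 : Monoid.CoprodI.lift j = QuotientGroup.mk' (Subgroup.normalClosure (relators T)) := by
      apply Monoid.CoprodI.ext_hom
      intro v
      rw [Monoid.CoprodI.lift_comp_of]
    rw [h1]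
  · intro e v w hv hw
    apply MonoidHom.ext
    intro x
    show QuotientGroup.mk' (Subgroup.normalClosure (relators T)) _ =
      QuotientGroup.mk' (Subgroup.normalClosure (relators T)) _
    rw [← mul_inv_eq_one, ← map_inv, ← map_mul]
    exact (QuotientGroup.eq_one_iff _).2 (Subgroup.subset_normalClosure ⟨e, v, w, hv, hw, x, rfl⟩)
  · intro Ω β hβ
    have hle : Subgroup.normalClosure (relators T) ≤ (Monoid.CoprodI.lift β).ker := by
      apply Subgroup.normalClosure_le_normal
      rintro r ⟨e, v, w, hv, hw, x, rfl⟩
      rw [SetLike.mem_coe, MonoidHom.mem_ker, map_mul, map_inv, Monoid.CoprodI.lift_of,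
        Monoid.CoprodI.lift_of, mul_inv_eq_one]
      exact DFunLike.congr_fun (hβ e v w hv hw) x
    exact ⟨QuotientGroup.lift _ (Monoid.CoprodI.lift β) hle, fun v =>
      MonoidHom.ext fun g => Monoid.CoprodI.lift_of β g⟩

end Pool.Agent.Results.MP_64528c_al.TreeVFibered
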